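import Pool.Agent.Helper44.T5.Cls

/-!
# Label vectors as numbers

`dec u k`, `k < ∏ p i ^ u i`, enumerates the vectors `j` with `j i < p i ^ u i`.  The class maps
`clm θ (dec u k)` are the maps `cl` of the reduction to a common front (`tower_card`).
-/

namespace Pool.Agent.Helper44.T5

open Finset Pool.Agent.Helper27.T4 Pool.Agent.Helper3.T4

variable {ι : Type*} [Fintype ι] [DecidableEq ι] {p : ι → ℕ}

/-- the box -/
def boxJ (J : ι → ℕ) : Finset (ι → ℕ) := Fintype.piFinset (fun i => range (J i))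

theorem mem_boxJ {J j : ι → ℕ} : j ∈ boxJ J ↔ ∀ i, j i < J i := by
  rw [boxJ, Fintype.mem_piFinset]
  exact forall_congr' (fun i => mem_range)

theorem card_boxJ (J : ι → ℕ) : (boxJ J).card = ∏ i, J i := by
  rw [boxJ, Fintype.card_piFinset]
  exact Finset.prod_congr rfl (fun i _ => card_range _)

theorem exists_encJ (J : ι → ℕ) : ∃ (enc : (ι → ℕ) → ℕ) (dec : ℕ → ι → ℕ),
    (∀ j, (∀ i, j i < J i) → enc j < ∏ i, J i ∧ dec (enc j) = j) ∧
    (∀ k < ∏ i, J i, (∀ i, dec k i < J i) ∧ enc (dec k) = k) := by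
  classical
  set e := (boxJ J).equivFin with he
  have hc := card_boxJ J
  refine ⟨fun j => if h : j ∈ boxJ J then (e ⟨j, h⟩ : ℕ) else 0,
    fun k => if h : k < (boxJ J).card then (e.symm ⟨k, h⟩ : ι → ℕ) else 0, ?_, ?_⟩
  · intro j hj
    have h : j ∈ boxJ J := mem_boxJ.2 hj
    have hlt : (e ⟨j, h⟩ : ℕ) < (boxJ J).card := (e ⟨j, h⟩).2
    simp only [dif_pos h]
    refine ⟨by rw [← hc]; exact hlt, ?_⟩
    rw [dif_pos hlt]
    simp
  · intro k hk
    rw [← hc] at hk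
    simp only [dif_pos hk]
    have h := (e.symm ⟨k, hk⟩).2
    refine ⟨mem_boxJ.1 h, ?_⟩
    rw [dif_pos h]
    simp

/-- the number of a vector -/
noncomputable def encJ (J : ι → ℕ) : (ι → ℕ) → ℕ := (exists_encJ J).choose

/-- the vector of a number -/
noncomputable def decJ (J : ι → ℕ) : ℕ → ι → ℕ := (exists_encJ J).choose_spec.choose

theorem encJ_spec (J : ι → ℕ) {j : ι → ℕ} (hj : ∀ i, j i < J i) :
    encJ J j < ∏ i, J i ∧ decJ J (encJ J j) = j :=
  (exists_encJ J).choose_spec.choose_spec.1 j hj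

theorem decJ_spec (J : ι → ℕ) {k : ℕ} (hk : k < ∏ i, J i) :
    (∀ i, decJ J k i < J i) ∧ encJ J (decJ J k) = k :=
  (exists_encJ J).choose_spec.choose_spec.2 k hk

/-- the class map on numbers -/
noncomputable def cln (hp : ∀ i, (p i).Prime) (hinj : Function.Injective p) (b d u : ι → ℕ)
    (θ : ι → ℕ × ℕ) (k : ℕ) : ℕ := clm hp hinj b d θ (decJ (fun i => p i ^ u i) k)

/-- the label of a pair -/
noncomputable def labJ (p b u : ι → ℕ) (q : (ι → ℕ) × (ι → ℕ)) : ℕ :=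
  encJ (fun i => p i ^ u i) (fun i => (q.1 i * q.2 i) / p i ^ (b i + 1))

/-- the number of labels in a class -/
theorem card_cln_class (hp : ∀ i, (p i).Prime) (hp2 : ∀ i, p i ≠ 2)
    (hinj : Function.Injective p) (b d e u : ι → ℕ) (he : ∀ i, e i ≤ d i) {θ : ι → ℕ × ℕ}
    (hθ : θ ∈ Theta p d) (c : ℕ) :
    ((range (∏ i, p i ^ u i)).filter
      (fun k => cln hp hinj b d u θ k ≡ c [MOD NN p e])).card ≤ ∏ i, p i ^ (u i - e i) := by
  classical
  refine (card_le_card_of_injOn (decJ (fun i => p i ^ u i))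
    (t := ((range (∏ i, p i ^ u i)).filter
      (fun k => cln hp hinj b d u θ k ≡ c [MOD NN p e])).image (decJ (fun i => p i ^ u i)))
    (fun k hk => Finset.mem_coe.2 (mem_image_of_mem _ (Finset.mem_coe.1 hk))) ?_).trans ?_
  · intro k hk k' hk' h
    rw [Finset.mem_coe, mem_filter, mem_range] at hk hk'
    rw [← (decJ_spec _ hk.1).2, ← (decJ_spec _ hk'.1).2, h]
  · refine card_clm_class hp hp2 hinj b d e u he hθ c _ ?_
    intro j hj
    rw [mem_image] at hj
    obtain ⟨k, hk, rfl⟩ := hj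
    rw [mem_filter, mem_range] at hk
    exact ⟨(decJ_spec _ hk.1).1, hk.2⟩

/-- the class map is injective when the labels are short -/
theorem cln_inj (hp : ∀ i, (p i).Prime) (hp2 : ∀ i, p i ≠ 2) (hinj : Function.Injective p)
    (b d e u : ι → ℕ) (he : ∀ i, e i ≤ d i) (hu : ∀ i, u i ≤ e i) {θ : ι → ℕ × ℕ}
    (hθ : θ ∈ Theta p d) {k k' : ℕ} (hk : k < ∏ i, p i ^ u i) (hk' : k' < ∏ i, p i ^ u i)
    (h : cln hp hinj b d u θ k ≡ cln hp hinj b d u θ k' [MOD NN p e]) : k = k' := by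
  obtain ⟨h1, h2⟩ := decJ_spec (fun i => p i ^ u i) hk
  obtain ⟨h1', h2'⟩ := decJ_spec (fun i => p i ^ u i) hk'
  rw [← h2, ← h2']
  congr 1
  funext i
  have h3 := clm_inj hp hp2 hinj b d e he hθ _ _ h i
  have hle : p i ^ u i ≤ p i ^ e i := Nat.pow_le_pow_right (hp i).pos (hu i)
  rw [Nat.ModEq, Nat.mod_eq_of_lt (lt_of_lt_of_le (h1 i) hle),
    Nat.mod_eq_of_lt (lt_of_lt_of_le (h1' i) hle)] at h3
  exact h3

/-- **The label form of the joint level.**  `X`, `X'` = admissible vectors of the two states (ranges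
`a`, `b`), `C`, `C'` = codes, `n` = the target.  For every class `κ` of pairs there is a
`θ` in `Theta p d` such that the code sum of every pair of the class is given by the label. -/
theorem joint_labels (hp : ∀ i, (p i).Prime) (hp2 : ∀ i, p i ≠ 2) (hinj : Function.Injective p)
    (a b d : ι → ℕ) (hab : ∀ i, b i ≤ a i) (X X' : Finset (ι → ℕ)) (C C' : (ι → ℕ) → ℕ)
    (σ σ' : ∀ i, (ι → ℕ) → ZMod (p i ^ (b i + d i)))
    (hX : ∀ x ∈ X, ∀ i, (x i).Coprime (p i) ∧ (x i) ^ 2 < p i ^ a i)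
    (hX' : ∀ x ∈ X', ∀ i, (x i).Coprime (p i) ∧ (x i) ^ 2 < p i ^ b i)
    (hC : ∀ x ∈ X, ∀ i, ((C x : ℕ) : ZMod (p i ^ (b i + d i))) =
      Lg (p i) (b i + d i) (x i) + σ i x)
    (hC' : ∀ x ∈ X', ∀ i, ((C' x : ℕ) : ZMod (p i ^ (b i + d i))) =
      Lg (p i) (b i + d i) (x i) + σ' i x)
    (B : Finset ι)
    (hB : ∀ i, d i ≠ 0 → ∀ x y, (∀ j ∈ B, x j = y j) → σ i x = σ i y)
    (hB' : ∀ i, d i ≠ 0 → ∀ x y, (∀ j ∈ B, x j = y j) → σ' i x = σ' i y)
    (n : ℕ) (κ : ι → ℕ × ℕ) :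
    ∃ θ ∈ Theta p d, ∀ x ∈ X, ∀ x' ∈ X', C x + C' x' ≡ n [MOD NN p b] →
      PhiB p b d B (x, x') = κ →
      labJ p b (fun i => (a i - b i) / 2) (x, x') < ∏ i, p i ^ ((a i - b i) / 2) ∧
      (C x + C' x') / NN p b ≡ cln hp hinj b d (fun i => (a i - b i) / 2) θ
        (labJ p b (fun i => (a i - b i) / 2) (x, x')) [MOD NN p d] := by
  classical
  have hlab : ∀ x ∈ X, ∀ x' ∈ X', ∀ i,
      (x i * x' i) / p i ^ (b i + 1) < p i ^ ((a i - b i) / 2) := fun x hx x' hx' i =>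
    (prod_param (hp i) (a i) (b i) _ _ (hab i) (hX x hx i).2 (hX' x' hx' i).2).2
  by_cases hex : ∃ x₀ ∈ X, ∃ x₀' ∈ X', C x₀ + C' x₀' ≡ n [MOD NN p b] ∧
      PhiB p b d B (x₀, x₀') = κ
  · obtain ⟨x₀, h₀, x₀', h₀', hn₀, hκ⟩ := hex
    obtain ⟨θ, hθ, hθ2⟩ := class_map hp hp2 hinj b d X X' C C' σ σ'
      (fun x hx i => (hX x hx i).1) (fun x hx i => (hX' x hx i).1) hC hC' B hB hB' n (x₀, x₀')
      h₀ h₀' hn₀
    refine ⟨θ, hθ, ?_⟩
    intro x hx x' hx' hn hκ'
    have henc := encJ_spec (fun i => p i ^ ((a i - b i) / 2)) (hlab x hx x' hx')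
    refine ⟨henc.1, ?_⟩
    have h1 := hθ2 x hx x' hx' hn ?_ ?_
    · rw [cln, labJ, henc.2]
      exact h1
    · intro j hj
      have h2 := congrFun (hκ'.trans hκ.symm) j
      simp only [PhiB, if_pos hj, Prod.mk.injEq] at h2
      exact h2
    · intro i hi
      by_cases hiB : i ∈ B
      · have h2 := congrFun (hκ'.trans hκ.symm) i
        simp only [PhiB, if_pos hiB, Prod.mk.injEq] at h2
        rw [h2.1, h2.2]
      · have h2 := congrFun (hκ'.trans hκ.symm) i
        simp only [PhiB, if_neg hiB, if_pos hi, Prod.mk.injEq] at h2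
        exact h2.1
  · push Not at hex
    refine ⟨fun i => (0, if d i = 0 then 0 else 1), ?_, ?_⟩
    · rw [Theta, Fintype.mem_piFinset]
      intro i
      rw [mem_product, mem_range, mem_filter, mem_range]
      refine ⟨pow_pos (hp i).pos _, ?_, ?_⟩
      · by_cases hd : d i = 0
        · rw [if_pos hd]
          exact pow_pos (hp i).pos _
        · rw [if_neg hd]
          exact Nat.one_lt_pow hd (hp i).one_lt
      · by_cases hd : d i = 0
        · exact Or.inl hd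
        · right
          rw [if_neg hd]
          exact Nat.coprime_one_left _
    · intro x hx x' hx' hn hκ
      exact absurd hκ (hex x hx x' hx' hn)

end Pool.Agent.Helper44.T5
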