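import Pool.Agent.Helper3.T4.Decode

/-!
# Labels and decoding for the joint level (T5)

Coordinates are `1` or a prime (`Good`), so families which have just started to grow are covered.
The hash values of both sides depend on the coordinates of smaller rank only (one common rank
function: the union of the two hash graphs is acyclic).

* `lab_le`: pairs with a given code sum modulo `∏ p i ^ b i`;
* `inj_le`: the same modulo `∏ p i ^ e i` when `a i + b i ≤ 2 * e i`;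
* `quot_le`: pairs with given residues of the code sum and given quotients of the products;
* `side_le`: one side given.
-/

namespace Pool.Agent.Helper44.T5

open Finset Pool.Agent.Helper27.T4 Pool.Agent.Helper3.T4

/-- admissible coordinates -/
def Good (x : ℕ) : Prop := x = 1 ∨ x.Prime

theorem Good.pos {x : ℕ} (h : Good x) : 0 < x := by
  rcases h with rfl | h
  · exact Nat.one_pos
  · exact h.pos

/-- a number is a product of two admissible numbers in at most two ways -/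
theorem card_two_good_le (S : Finset (ℕ × ℕ)) (m : ℕ)
    (hS : ∀ q ∈ S, Good q.1 ∧ Good q.2 ∧ q.1 * q.2 = m) : S.card ≤ 2 := by
  classical
  by_cases hm : m = 1 ∨ m.Prime
  · have hsub : S ⊆ {((1 : ℕ), m), (m, 1)} := by
      intro q hq
      obtain ⟨h1, h2, h3⟩ := hS q hq
      have h4 : q.1 = 1 ∨ q.1 = m := by
        rcases hm with rfl | hm
        · left
          exact Nat.eq_one_of_mul_eq_one_right h3
        · exact (Nat.dvd_prime hm).1 ⟨q.2, h3.symm⟩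
      rw [mem_insert, mem_singleton]
      rcases h4 with h4 | h4
      · left
        refine Prod.ext h4 ?_
        rw [h4, one_mul] at h3
        exact h3
      · right
        refine Prod.ext h4 ?_
        have hm0 : 0 < m := h4 ▸ h1.pos
        rw [h4] at h3
        exact Nat.eq_of_mul_eq_mul_left hm0 (by rw [h3, mul_one])
    exact (card_le_card hsub).trans card_le_two
  · push Not at hm
    refine card_two_primes_le S m ?_
    intro q hq
    obtain ⟨h1, h2, h3⟩ := hS q hq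
    have h1' : q.1.Prime := by
      rcases h1 with h1 | h1
      · exfalso
        rw [h1, one_mul] at h3
        rw [h3] at h2
        rcases h2 with h2 | h2
        · exact hm.1 h2
        · exact hm.2 h2
      · exact h1
    have h2' : q.2.Prime := by
      rcases h2 with h2 | h2
      · exfalso
        rw [h2, mul_one] at h3
        rw [h3] at h1'
        exact hm.2 h1'
      · exact h2
    exact ⟨h1', h2', h3⟩

/-- pairs with a given index modulo `p ^ b`, the quotients lie in a set of `Qn` numbers -/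
theorem pairs_mod {p : ℕ} (hp : p.Prime) (hp2 : p ≠ 2) (b : ℕ) (t : ZMod (p ^ b)) (W : Finset ℕ)
    (S : Finset (ℕ × ℕ))
    (hS : ∀ z ∈ S, Good z.1 ∧ Good z.2 ∧ z.1.Coprime p ∧ z.2.Coprime p ∧
      (z.1 * z.2) / p ^ (b + 1) ∈ W ∧ Lg p b z.1 + Lg p b z.2 = t) :
    S.card ≤ 2 * ((p - 1) * W.card) := by
  classical
  set T := ((Finset.range (p ^ (b + 1))).filter (fun m => m.Coprime p ∧ Lg p b m = t)) ×ˢ W
    with hT
  have hTc : T.card ≤ (p - 1) * W.card := by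
    rw [hT, Finset.card_product]
    exact Nat.mul_le_mul_right _ (card_Lg_le hp hp2 b t)
  refine le_trans (Finset.card_le_mul_card_image_of_maps_to
    (f := fun q : ℕ × ℕ => ((q.1 * q.2) % p ^ (b + 1), (q.1 * q.2) / p ^ (b + 1)))
    (t := T) ?_ 2 ?_) (Nat.mul_le_mul_left 2 hTc)
  · intro q hq
    obtain ⟨_, _, h3, h4, h5, h7⟩ := hS q hq
    have hc : (q.1 * q.2).Coprime p := Nat.Coprime.mul_left h3 h4
    rw [hT, Finset.mem_product]
    simp only [Finset.mem_filter, Finset.mem_range]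
    refine ⟨⟨Nat.mod_lt _ (pow_pos hp.pos _), mod_coprime b _ hc, ?_⟩, h5⟩
    rw [Lg_mod, Lg_mul hp hp2 b _ _ h3 h4, h7]
  · intro m _
    refine card_two_good_le _ (m.1 + m.2 * p ^ (b + 1)) ?_
    intro q hq
    simp only [Finset.mem_filter] at hq
    obtain ⟨hq1, hq2⟩ := hq
    obtain ⟨h1, h2, _, _, _, _⟩ := hS q hq1
    refine ⟨h1, h2, ?_⟩
    rw [← hq2]
    simp only
    rw [mul_comm _ (p ^ (b + 1))]
    exact (Nat.mod_add_div _ _).symm

section

variable {ι : Type*} [Fintype ι] [DecidableEq ι] {p : ι → ℕ}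

/-- the general form: the quotients of the family `i` lie in `W i` -/
theorem code_pairs_mod (hp : ∀ i, (p i).Prime) (hp2 : ∀ i, p i ≠ 2) (b : ι → ℕ) (rk : ι → ℕ)
    (σ σ' : ∀ i, (ι → ℕ) → ZMod (p i ^ b i))
    (hσ : ∀ i x y, (∀ j, rk j < rk i → x j = y j) → σ i x = σ i y)
    (hσ' : ∀ i x y, (∀ j, rk j < rk i → x j = y j) → σ' i x = σ' i y)
    (c : ∀ i, ZMod (p i ^ b i)) (W : ι → Finset ℕ) (S : Finset ((ι → ℕ) × (ι → ℕ)))
    (hS : ∀ g ∈ S, ∀ i, Good (g.1 i) ∧ Good (g.2 i) ∧ (g.1 i).Coprime (p i) ∧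
      (g.2 i).Coprime (p i) ∧ (g.1 i * g.2 i) / p i ^ (b i + 1) ∈ W i ∧
      (Lg (p i) (b i) (g.1 i) + σ i g.1) + (Lg (p i) (b i) (g.2 i) + σ' i g.2) = c i) :
    S.card ≤ ∏ i, (2 * ((p i - 1) * (W i).card)) := by
  classical
  set Φ : ((ι → ℕ) × (ι → ℕ)) → ι → ℕ × ℕ := fun g i => (g.1 i, g.2 i) with hΦ
  have hinjΦ : Function.Injective Φ := by
    intro g g' h
    refine Prod.ext ?_ ?_
    · funext i
      exact congrArg Prod.fst (congrFun h i)
    · funext i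
      exact congrArg Prod.snd (congrFun h i)
  rw [← card_image_of_injective S hinjΦ]
  refine card_le_prod_of_rank rk _ _ ?_
  intro f g hg
  rw [mem_image] at hg
  obtain ⟨g0, hg0, rfl⟩ := hg
  refine pairs_mod (hp f) (hp2 f) (b f) (c f - σ f g0.1 - σ' f g0.2) (W f) _ ?_
  intro z hz
  rw [Finset.mem_image] at hz
  obtain ⟨w, hw, rfl⟩ := hz
  rw [Finset.mem_filter, mem_image] at hw
  obtain ⟨⟨g', hg', rfl⟩, hlow⟩ := hw
  obtain ⟨h1, h2, h3, h4, h5, h6⟩ := hS g' hg' f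
  refine ⟨h1, h2, h3, h4, h5, ?_⟩
  have e1 : σ f g'.1 = σ f g0.1 := hσ f _ _ (fun j hj => congrArg Prod.fst (hlow j hj))
  have e2 : σ' f g'.2 = σ' f g0.2 := hσ' f _ _ (fun j hj => congrArg Prod.snd (hlow j hj))
  rw [← h6, e1, e2]
  ring

/-- **LAB** -/
theorem lab_le (hp : ∀ i, (p i).Prime) (hp2 : ∀ i, p i ≠ 2) (a b : ι → ℕ) (hab : ∀ i, b i ≤ a i)
    (rk : ι → ℕ) (σ σ' : ∀ i, (ι → ℕ) → ZMod (p i ^ b i))
    (hσ : ∀ i x y, (∀ j, rk j < rk i → x j = y j) → σ i x = σ i y)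
    (hσ' : ∀ i x y, (∀ j, rk j < rk i → x j = y j) → σ' i x = σ' i y)
    (c : ∀ i, ZMod (p i ^ b i)) (S : Finset ((ι → ℕ) × (ι → ℕ)))
    (hS : ∀ g ∈ S, ∀ i, Good (g.1 i) ∧ Good (g.2 i) ∧ (g.1 i).Coprime (p i) ∧
      (g.2 i).Coprime (p i) ∧ (g.1 i) ^ 2 < p i ^ a i ∧ (g.2 i) ^ 2 < p i ^ b i ∧
      (Lg (p i) (b i) (g.1 i) + σ i g.1) + (Lg (p i) (b i) (g.2 i) + σ' i g.2) = c i) :
    S.card ≤ ∏ i, (2 * ((p i - 1) * p i ^ ((a i - b i) / 2))) := by
  classical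
  have h := code_pairs_mod hp hp2 b rk σ σ' hσ hσ' c (fun i => range (p i ^ ((a i - b i) / 2))) S
    (fun g hg i => by
      obtain ⟨h1, h2, h3, h4, h5, h6, h7⟩ := hS g hg i
      exact ⟨h1, h2, h3, h4, mem_range.2 (prod_param (hp i) (a i) (b i) _ _ (hab i) h5 h6).2, h7⟩)
  simpa only [card_range] using h

/-- the product is smaller than `p ^ e` -/
theorem prod_lt_of_half {q a b e x y : ℕ} (hq : 0 < q) (hx : x ^ 2 < q ^ a) (hy : y ^ 2 < q ^ b)
    (he : a + b ≤ 2 * e) : x * y < q ^ e := by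
  have h1 : (x * y) ^ 2 < (q ^ e) ^ 2 := by
    calc (x * y) ^ 2 = x ^ 2 * y ^ 2 := by ring
      _ < q ^ a * q ^ b := Nat.mul_lt_mul'' hx hy
      _ = q ^ (a + b) := (pow_add _ _ _).symm
      _ ≤ q ^ (2 * e) := Nat.pow_le_pow_right hq he
      _ = (q ^ e) ^ 2 := by rw [← pow_mul, mul_comm]
  exact lt_of_pow_lt_pow_left₀ 2 (Nat.zero_le _) h1

/-- **INJ** -/
theorem inj_le (hp : ∀ i, (p i).Prime) (hp2 : ∀ i, p i ≠ 2) (a b e : ι → ℕ)
    (he : ∀ i, a i + b i ≤ 2 * e i)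
    (rk : ι → ℕ) (σ σ' : ∀ i, (ι → ℕ) → ZMod (p i ^ e i))
    (hσ : ∀ i x y, (∀ j, rk j < rk i → x j = y j) → σ i x = σ i y)
    (hσ' : ∀ i x y, (∀ j, rk j < rk i → x j = y j) → σ' i x = σ' i y)
    (c : ∀ i, ZMod (p i ^ e i)) (S : Finset ((ι → ℕ) × (ι → ℕ)))
    (hS : ∀ g ∈ S, ∀ i, Good (g.1 i) ∧ Good (g.2 i) ∧ (g.1 i).Coprime (p i) ∧
      (g.2 i).Coprime (p i) ∧ (g.1 i) ^ 2 < p i ^ a i ∧ (g.2 i) ^ 2 < p i ^ b i ∧
      (Lg (p i) (e i) (g.1 i) + σ i g.1) + (Lg (p i) (e i) (g.2 i) + σ' i g.2) = c i) :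
    S.card ≤ ∏ i, (2 * (p i - 1)) := by
  classical
  have h := code_pairs_mod hp hp2 e rk σ σ' hσ hσ' c (fun _ => {0}) S
    (fun g hg i => by
      obtain ⟨h1, h2, h3, h4, h5, h6, h7⟩ := hS g hg i
      refine ⟨h1, h2, h3, h4, ?_, h7⟩
      rw [mem_singleton]
      refine Nat.div_eq_of_lt (lt_of_lt_of_le (prod_lt_of_half (hp i).pos h5 h6 (he i)) ?_)
      exact Nat.pow_le_pow_right (hp i).pos (Nat.le_succ _))
  simpa only [card_singleton, mul_one] using h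

/-- given quotients -/
theorem quot_le (hp : ∀ i, (p i).Prime) (hp2 : ∀ i, p i ≠ 2) (b : ι → ℕ)
    (rk : ι → ℕ) (σ σ' : ∀ i, (ι → ℕ) → ZMod (p i ^ b i))
    (hσ : ∀ i x y, (∀ j, rk j < rk i → x j = y j) → σ i x = σ i y)
    (hσ' : ∀ i x y, (∀ j, rk j < rk i → x j = y j) → σ' i x = σ' i y)
    (c : ∀ i, ZMod (p i ^ b i)) (q : ι → ℕ) (S : Finset ((ι → ℕ) × (ι → ℕ)))
    (hS : ∀ g ∈ S, ∀ i, Good (g.1 i) ∧ Good (g.2 i) ∧ (g.1 i).Coprime (p i) ∧
      (g.2 i).Coprime (p i) ∧ (g.1 i * g.2 i) / p i ^ (b i + 1) = q i ∧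
      (Lg (p i) (b i) (g.1 i) + σ i g.1) + (Lg (p i) (b i) (g.2 i) + σ' i g.2) = c i) :
    S.card ≤ ∏ i, (2 * (p i - 1)) := by
  classical
  have h := code_pairs_mod hp hp2 b rk σ σ' hσ hσ' c (fun i => {q i}) S
    (fun g hg i => by
      obtain ⟨h1, h2, h3, h4, h5, h7⟩ := hS g hg i
      exact ⟨h1, h2, h3, h4, mem_singleton.2 h5, h7⟩)
  simpa only [card_singleton, mul_one] using h

/-- one side, the codes given -/
theorem side_le (hp : ∀ i, (p i).Prime) (hp2 : ∀ i, p i ≠ 2) (b : ι → ℕ)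
    (rk : ι → ℕ) (σ : ∀ i, (ι → ℕ) → ZMod (p i ^ b i))
    (hσ : ∀ i x y, (∀ j, rk j < rk i → x j = y j) → σ i x = σ i y)
    (c : ∀ i, ZMod (p i ^ b i)) (S : Finset (ι → ℕ))
    (hS : ∀ x ∈ S, ∀ i, (x i).Coprime (p i) ∧ (x i) ^ 2 < p i ^ (2 * b i) ∧
      Lg (p i) (b i) (x i) + σ i x = c i) :
    S.card ≤ ∏ i, (p i - 1) := by
  classical
  refine card_le_prod_of_rank rk (fun i => p i - 1) S ?_
  intro f g _
  have h := card_single_le (hp f) (hp2 f) (2 * b f) (b f) (c f - σ f g)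
    ((S.filter (fun g' => ∀ i, rk i < rk f → g' i = g i)).image (fun g' => g' f)) ?_
  · have h0 : (2 * b f - 2 * b f) / 2 = 0 := by omega
    rw [h0, pow_zero, mul_one] at h
    exact h
  · intro x hx
    rw [Finset.mem_image] at hx
    obtain ⟨g', hg', rfl⟩ := hx
    rw [Finset.mem_filter] at hg'
    obtain ⟨h1, h2, h3⟩ := hS g' hg'.1 f
    refine ⟨h1, h2, ?_⟩
    rw [← h3, hσ f g' g hg'.2]
    ring

end

end Pool.Agent.Helper44.T5
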