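import Pool.Agent.Helper3.T4.Decode

/-!
# The index along a progression, without linearity

`psi p b d ρ j` is the index of `1 + j ρ p ^ (b + 1)` modulo `p ^ (b + d)`, divided by `p ^ b`.
For a unit `r` the index of `r + j p ^ (b + 1)` is `Lg r + p ^ b * psi ρ j` with `ρ = 1 / r`, and
only `ρ` modulo `p ^ d` matters.  No relation between `b` and `d` is needed (newborn families).
-/

namespace Pool.Agent.Helper44.T5

open Finset Pool.Agent.Helper27.T4 Pool.Agent.Helper3.T4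

/-- the index is injective on a residue class modulo `p` -/
theorem Lg_inj_class {p : ℕ} (hp : p.Prime) (hp2 : p ≠ 2) (a x y : ℕ) (hx : x.Coprime p)
    (hy : y.Coprime p) (h1 : x ≡ y [MOD p]) (h : Lg p a x = Lg p a y) :
    x ≡ y [MOD p ^ (a + 1)] := by
  have h2 := (Lg_eq_iff hp hp2 a x y hx hy).1 h
  have h3 : x ^ (p - 1) ≡ y ^ (p - 1) [MOD p ^ (a + 1)] := by
    rw [← ZMod.natCast_eq_natCast_iff]
    push_cast
    exact h2
  have h4 : ((p : ℤ) ^ (a + 1)) ∣ (x : ℤ) ^ (p - 1) - (y : ℤ) ^ (p - 1) := by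
    have h5 := (Nat.modEq_iff_dvd.1 h3.symm)
    push_cast at h5
    exact h5
  have h6 : (p : ℤ) ∣ (x : ℤ) - y := by
    have h5 := (Nat.modEq_iff_dvd.1 h1.symm)
    exact h5
  have hpZ : Prime (p : ℤ) := Nat.prime_iff_prime_int.1 hp
  have h7 : ¬ (p : ℤ) ∣ ∑ i ∈ range (p - 1), (x : ℤ) ^ i * (y : ℤ) ^ (p - 1 - 1 - i) := by
    rw [dvd_geom_sum₂_iff_of_dvd_sub h6]
    intro hd
    rcases hpZ.dvd_or_dvd hd with hd | hd
    · have h8 : p ∣ p - 1 := by exact_mod_cast hd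
      have h9 := Nat.le_of_dvd (Nat.sub_pos_of_lt hp.one_lt) h8
      have := hp.pos
      omega
    · have h8 := hpZ.dvd_of_dvd_pow hd
      have h9 : p ∣ y := by exact_mod_cast h8
      have h10 := Nat.Coprime.eq_one_of_dvd hy.symm h9
      exact hp.one_lt.ne' h10
  rw [← geom_sum₂_mul] at h4
  have hco : IsCoprime ((p : ℤ) ^ (a + 1))
      (∑ i ∈ range (p - 1), (x : ℤ) ^ i * (y : ℤ) ^ (p - 1 - 1 - i)) :=
    IsCoprime.pow_left ((Prime.coprime_iff_not_dvd hpZ).2 h7)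
  have h8 := hco.dvd_of_dvd_mul_left h4
  rw [Nat.ModEq.comm, Nat.modEq_iff_dvd]
  push_cast
  exact h8

theorem one_add_coprime {p : ℕ} (b k : ℕ) : (1 + k * p ^ (b + 1)).Coprime p := by
  have h : (1 + k * p ^ (b + 1)) = 1 + p * (k * p ^ b) := by ring
  rw [h]
  simp [Nat.coprime_add_mul_left_left]

/-- the index of `1` -/
theorem Lg_one {p : ℕ} (hp : p.Prime) (hp2 : p ≠ 2) (a : ℕ) : Lg p a 1 = 0 := by
  have h := Lg_mul hp hp2 a 1 1 (Nat.coprime_one_left p) (Nat.coprime_one_left p)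
  rw [mul_one] at h
  have h2 : Lg p a 1 + 0 = Lg p a 1 + Lg p a 1 := by rw [add_zero]; exact h
  exact (add_left_cancel h2).symm

/-- the index along the progression -/
noncomputable def psi (p b d ρ j : ℕ) : ℕ :=
  (Lg p (b + d) (1 + j * ρ * p ^ (b + 1))).val / p ^ b

theorem psi_spec {p : ℕ} (hp : p.Prime) (hp2 : p ≠ 2) (b d ρ j : ℕ) :
    Lg p (b + d) (1 + j * ρ * p ^ (b + 1)) = ((p ^ b * psi p b d ρ j : ℕ) : ZMod (p ^ (b + d))) := by
  have hne : NeZero (p ^ (b + d)) := ⟨(pow_pos hp.pos _).ne'⟩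
  have hc := one_add_coprime (p := p) b (j * ρ)
  have h1 := Lg_red hp hp2 (b + d) b _ hc (Nat.le_add_right b d)
  have h2 : Lg p b (1 + j * ρ * p ^ (b + 1)) = 0 := by
    rw [← Lg_one hp hp2 b]
    apply Lg_congr
    push_cast
    have h3 : ((p : ZMod (p ^ (b + 1))) ^ (b + 1)) = 0 := by
      rw [← Nat.cast_pow, ZMod.natCast_self]
    rw [h3, mul_zero, add_zero]
  rw [h2] at h1
  set v := Lg p (b + d) (1 + j * ρ * p ^ (b + 1)) with hv
  have h4 : ((v.val : ℕ) : ZMod (p ^ b)) = 0 := by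
    rw [← h1]
    rw [ZMod.castHom_apply, ZMod.natCast_val]
  have h5 : p ^ b ∣ v.val := (ZMod.natCast_eq_zero_iff _ _).1 h4
  have h6 : p ^ b * psi p b d ρ j = v.val := by
    rw [psi]
    exact Nat.mul_div_cancel' h5
  rw [h6, ZMod.natCast_zmod_val]

theorem psi_lt {p : ℕ} (hp : p.Prime) (b d ρ j : ℕ) : psi p b d ρ j < p ^ d := by
  have hne : NeZero (p ^ (b + d)) := ⟨(pow_pos hp.pos _).ne'⟩
  rw [psi, Nat.div_lt_iff_lt_mul (pow_pos hp.pos _), ← pow_add, add_comm d b]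
  exact ZMod.val_lt _

theorem psi_mod (p b d ρ j : ℕ) : psi p b d (ρ % p ^ d) j = psi p b d ρ j := by
  rw [psi, psi]
  have h : Lg p (b + d) (1 + j * (ρ % p ^ d) * p ^ (b + 1)) =
      Lg p (b + d) (1 + j * ρ * p ^ (b + 1)) := by
    apply Lg_congr
    rw [ZMod.natCast_eq_natCast_iff]
    refine Nat.ModEq.add_left 1 ?_
    have h1 : j * (ρ % p ^ d) ≡ j * ρ [MOD p ^ d] := (Nat.mod_modEq ρ (p ^ d)).mul_left j
    have h2 := Nat.ModEq.mul_right' (p ^ (b + 1)) h1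
    have h3 : p ^ d * p ^ (b + 1) = p ^ (b + d + 1) := by
      rw [← pow_add]; congr 1; omega
    rw [h3] at h2
    exact h2
  rw [h]

/-- **growth without linearity** -/
theorem grow_psi {p : ℕ} (hp : p.Prime) (hp2 : p ≠ 2) (b d r : ℕ) (hr : r.Coprime p) :
    ∃ ρ < p ^ d, (d = 0 ∨ ρ.Coprime p) ∧ ∀ j : ℕ,
      Lg p (b + d) (r + j * p ^ (b + 1)) =
        Lg p (b + d) r + ((p ^ b * psi p b d ρ j : ℕ) : ZMod (p ^ (b + d))) := by
  obtain ⟨ρ, -, hρ⟩ := Nat.exists_mul_mod_eq_of_coprime (n := r) (k := p ^ (b + d + 1)) 1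
    (Nat.Coprime.pow_right _ hr) (pow_pos hp.pos _).ne'
  have hρ1 : r * ρ ≡ 1 [MOD p ^ (b + d + 1)] := hρ
  have hρc : ρ.Coprime p := by
    have h1 : (r * ρ).Coprime (p ^ (b + d + 1)) := by
      rw [Nat.coprime_iff_gcd_eq_one, Nat.ModEq.gcd_eq hρ1]
      simp
    exact Nat.Coprime.coprime_dvd_right (dvd_pow_self p (Nat.succ_ne_zero _))
      (Nat.Coprime.coprime_mul_left h1)
  refine ⟨ρ % p ^ d, Nat.mod_lt _ (pow_pos hp.pos _), ?_, ?_⟩
  · rcases Nat.eq_zero_or_pos d with hd | hd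
    · exact Or.inl hd
    · right
      obtain ⟨d', rfl⟩ := Nat.exists_eq_add_of_le hd
      rw [add_comm 1 d']
      exact mod_coprime d' ρ hρc
  · intro j
    rw [psi_mod, ← psi_spec hp hp2 b d ρ j]
    have hc1 : (r + j * p ^ (b + 1)).Coprime p := by
      have h : r + j * p ^ (b + 1) = r + p * (j * p ^ b) := by ring
      rw [h]
      simpa [Nat.coprime_add_mul_left_left] using hr
    have e1 : Lg p (b + d) ((r + j * p ^ (b + 1)) * ρ) = Lg p (b + d) (1 + j * ρ * p ^ (b + 1)) := by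
      apply Lg_congr
      rw [ZMod.natCast_eq_natCast_iff]
      have h : (r + j * p ^ (b + 1)) * ρ = r * ρ + j * ρ * p ^ (b + 1) := by ring
      rw [h]
      exact Nat.ModEq.add_right _ hρ1
    have e2 : Lg p (b + d) (r * ρ) = 0 := by
      rw [← Lg_one hp hp2 (b + d)]
      apply Lg_congr
      rw [ZMod.natCast_eq_natCast_iff]
      exact hρ1
    rw [Lg_mul hp hp2 _ _ _ hc1 hρc] at e1
    rw [Lg_mul hp hp2 _ _ _ hr hρc] at e2
    rw [← e1]
    linear_combination -e2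

/-- **the classes of the index along the progression** -/
theorem psi_inj {p : ℕ} (hp : p.Prime) (hp2 : p ≠ 2) (b d e ρ j j' : ℕ) (he : e ≤ d)
    (hρ : d = 0 ∨ ρ.Coprime p) (h : psi p b d ρ j ≡ psi p b d ρ j' [MOD p ^ e]) :
    j ≡ j' [MOD p ^ e] := by
  rcases Nat.eq_zero_or_pos e with rfl | he0
  · rw [pow_zero]
    exact Nat.modEq_one
  have hρc : ρ.Coprime p := by
    rcases hρ with h0 | h0
    · omega
    · exact h0
  have hle : b + e ≤ b + d := by omega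
  have key : ∀ k : ℕ, Lg p (b + e) (1 + k * ρ * p ^ (b + 1)) =
      ((p ^ b * psi p b d ρ k : ℕ) : ZMod (p ^ (b + e))) := by
    intro k
    rw [← Lg_red hp hp2 (b + d) (b + e) _ (one_add_coprime b (k * ρ)) hle,
      psi_spec hp hp2 b d ρ k, map_natCast]
  have h1 : Lg p (b + e) (1 + j * ρ * p ^ (b + 1)) = Lg p (b + e) (1 + j' * ρ * p ^ (b + 1)) := by
    rw [key j, key j', ZMod.natCast_eq_natCast_iff, pow_add]
    exact Nat.ModEq.mul_left' (p ^ b) h
  have h2 := Lg_inj_class hp hp2 (b + e) _ _ (one_add_coprime b (j * ρ))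
    (one_add_coprime b (j' * ρ)) ?_ h1
  · have h3 : j * ρ * p ^ (b + 1) ≡ j' * ρ * p ^ (b + 1) [MOD p ^ (b + e + 1)] :=
      Nat.ModEq.add_left_cancel' 1 h2
    have h4 : p ^ (b + e + 1) = p ^ e * p ^ (b + 1) := by
      rw [← pow_add]; congr 1; omega
    rw [h4] at h3
    have h5 : j * ρ ≡ j' * ρ [MOD p ^ e] :=
      Nat.ModEq.mul_right_cancel' (pow_pos hp.pos _).ne' h3
    exact Nat.ModEq.cancel_right_of_coprime (Nat.Coprime.pow_left _ hρc.symm) h5
  · have h3 : ∀ k : ℕ, 1 + k * ρ * p ^ (b + 1) ≡ 1 [MOD p] := by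
      intro k
      have h4 : k * ρ * p ^ (b + 1) = p * (k * ρ * p ^ b) := by ring
      rw [h4]
      simpa using Nat.ModEq.add_left 1 ((Nat.modEq_zero_iff_dvd).2 (Dvd.intro _ rfl :
        p ∣ p * (k * ρ * p ^ b)))
    exact (h3 j).trans (h3 j').symm

end Pool.Agent.Helper44.T5
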