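import Pool.Agent.Helper44.T5.Lab
import Pool.Agent.Helper44.T5.Psi
import Pool.Agent.Helper27.T4.Crt

/-!
# Local class maps for several growing families (T5)

`b i` = exponents of the common modulus `M' = ∏ p i ^ b i`, `b i + d i` = exponents of the common
front, `B` = the families whose coordinates are needed by the hash values of the families with
`d i ≠ 0`.  On a class (coordinates of the families in `B` and residues of the products of the
families with `d i ≠ 0` given) the code sum modulo the front is a map `clm θ` of the vector of the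
quotients, with `θ` in a set of at most `(∏ p i ^ d i) ^ 2` elements.
-/

namespace Pool.Agent.Helper44.T5

open Finset Pool.Agent.Helper27.T4 Pool.Agent.Helper3.T4

variable {ι : Type*} [Fintype ι] [DecidableEq ι] {p : ι → ℕ}

/-- the cofactor -/
def cof (p b : ι → ℕ) (i : ι) : ℕ := ∏ j ∈ univ.erase i, p j ^ b j

theorem NN_cof (p b : ι → ℕ) (i : ι) : NN p b = p i ^ b i * cof p b i := by
  rw [NN, cof, Finset.mul_prod_erase Finset.univ (fun j => p j ^ b j) (Finset.mem_univ i)]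

theorem cof_coprime (hp : ∀ i, (p i).Prime) (hinj : Function.Injective p) (b : ι → ℕ) (i : ι) :
    (cof p b i).Coprime (p i) := by
  rw [cof]
  refine Nat.Coprime.prod_left (fun j hj => ?_)
  exact Nat.Coprime.pow_left _ ((Nat.coprime_primes (hp j) (hp i)).2
    (fun h => (Finset.ne_of_mem_erase hj) (hinj h)))

/-- the class map with the parameters `θ` -/
noncomputable def clm (hp : ∀ i, (p i).Prime) (hinj : Function.Injective p) (b d : ι → ℕ)
    (θ : ι → ℕ × ℕ) (j : ι → ℕ) : ℕ :=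
  cv hp hinj d (fun i => ((cof p b i : ℕ) : ZMod (p i ^ d i))⁻¹ *
    (((θ i).1 + psi (p i) (b i) (d i) (θ i).2 (j i) : ℕ) : ZMod (p i ^ d i)))

open Classical in
/-- the parameters -/
noncomputable def Theta (p d : ι → ℕ) : Finset (ι → ℕ × ℕ) :=
  Fintype.piFinset (fun i => range (p i ^ d i) ×ˢ
    ((range (p i ^ d i)).filter (fun ρ => d i = 0 ∨ ρ.Coprime (p i))))

theorem card_Theta_le (p d : ι → ℕ) : (Theta p d).card ≤ NN p d * NN p d := by
  classical
  rw [Theta, Fintype.card_piFinset, NN, ← Finset.prod_mul_distrib]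
  refine Finset.prod_le_prod' (fun i _ => ?_)
  rw [card_product, card_range]
  exact Nat.mul_le_mul_left _ ((card_filter_le _ _).trans (card_range _).le)

theorem clm_lt (hp : ∀ i, (p i).Prime) (hinj : Function.Injective p) (b d : ι → ℕ)
    (θ : ι → ℕ × ℕ) (j : ι → ℕ) : clm hp hinj b d θ j < NN p d := cv_lt _ _ _ _

/-- **Local class maps.** -/
theorem class_map (hp : ∀ i, (p i).Prime) (hp2 : ∀ i, p i ≠ 2) (hinj : Function.Injective p)
    (b d : ι → ℕ) (X X' : Finset (ι → ℕ)) (C C' : (ι → ℕ) → ℕ)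
    (σ σ' : ∀ i, (ι → ℕ) → ZMod (p i ^ (b i + d i)))
    (hX : ∀ x ∈ X, ∀ i, (x i).Coprime (p i)) (hX' : ∀ x ∈ X', ∀ i, (x i).Coprime (p i))
    (hC : ∀ x ∈ X, ∀ i, ((C x : ℕ) : ZMod (p i ^ (b i + d i))) =
      Lg (p i) (b i + d i) (x i) + σ i x)
    (hC' : ∀ x ∈ X', ∀ i, ((C' x : ℕ) : ZMod (p i ^ (b i + d i))) =
      Lg (p i) (b i + d i) (x i) + σ' i x)
    (B : Finset ι)
    (hB : ∀ i, d i ≠ 0 → ∀ x y, (∀ j ∈ B, x j = y j) → σ i x = σ i y)
    (hB' : ∀ i, d i ≠ 0 → ∀ x y, (∀ j ∈ B, x j = y j) → σ' i x = σ' i y)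
    (n : ℕ) (q₀ : (ι → ℕ) × (ι → ℕ)) (h₀ : q₀.1 ∈ X) (h₀' : q₀.2 ∈ X')
    (hn₀ : C q₀.1 + C' q₀.2 ≡ n [MOD NN p b]) :
    ∃ θ ∈ Theta p d, ∀ x ∈ X, ∀ x' ∈ X', C x + C' x' ≡ n [MOD NN p b] →
      (∀ j ∈ B, x j = q₀.1 j ∧ x' j = q₀.2 j) →
      (∀ i, d i ≠ 0 → (x i * x' i) % p i ^ (b i + 1) = (q₀.1 i * q₀.2 i) % p i ^ (b i + 1)) →
      (C x + C' x') / NN p b ≡ clm hp hinj b d θ (fun i => (x i * x' i) / p i ^ (b i + 1))
        [MOD NN p d] := by
  classical
  -- the parameters of one family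
  have hone : ∀ i, ∃ θ : ℕ × ℕ, (θ.1 < p i ^ d i ∧ θ.2 < p i ^ d i ∧
      (d i = 0 ∨ θ.2.Coprime (p i))) ∧ (d i ≠ 0 → ∀ x ∈ X, ∀ x' ∈ X',
        C x + C' x' ≡ n [MOD NN p b] → (∀ j ∈ B, x j = q₀.1 j ∧ x' j = q₀.2 j) →
        (x i * x' i) % p i ^ (b i + 1) = (q₀.1 i * q₀.2 i) % p i ^ (b i + 1) →
        (((cof p b i) * ((C x + C' x') / NN p b) : ℕ) : ZMod (p i ^ d i)) =
          ((θ.1 + psi (p i) (b i) (d i) θ.2 ((x i * x' i) / p i ^ (b i + 1)) : ℕ) :
            ZMod (p i ^ d i))) := by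
    intro i
    by_cases hd : d i = 0
    · exact ⟨(0, 0), ⟨pow_pos (hp i).pos _, pow_pos (hp i).pos _, Or.inl hd⟩, fun h => absurd hd h⟩
    set P := p i with hP
    have hPp : P.Prime := hp i
    have hP2 : P ≠ 2 := hp2 i
    set r₀ := (q₀.1 i * q₀.2 i) % P ^ (b i + 1) with hr₀
    have hr₀c : r₀.Coprime P :=
      mod_coprime _ _ (Nat.Coprime.mul_left (hX _ h₀ i) (hX' _ h₀' i))
    obtain ⟨ρ, hρlt, hρc, hgrow⟩ := grow_psi hPp hP2 (b i) (d i) r₀ hr₀c
    have hneA : NeZero (P ^ (b i + d i)) := ⟨(pow_pos hPp.pos _).ne'⟩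
    set A : ℕ := (Lg P (b i + d i) r₀ + σ i q₀.1 + σ' i q₀.2).val with hA
    have hAc : ((A : ℕ) : ZMod (P ^ (b i + d i))) = Lg P (b i + d i) r₀ + σ i q₀.1 + σ' i q₀.2 :=
      ZMod.natCast_zmod_val _
    set n' := n % NN p b with hn'
    -- the sum in a class
    have hsum : ∀ x ∈ X, ∀ x' ∈ X', (∀ j ∈ B, x j = q₀.1 j ∧ x' j = q₀.2 j) →
        (x i * x' i) % P ^ (b i + 1) = r₀ →
        ((C x + C' x' : ℕ) : ZMod (P ^ (b i + d i))) =
          ((A + P ^ (b i) * psi P (b i) (d i) ρ ((x i * x' i) / P ^ (b i + 1)) : ℕ) :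
            ZMod (P ^ (b i + d i))) := by
      intro x hx x' hx' hBx hres
      have hprod : x i * x' i = r₀ + (x i * x' i) / P ^ (b i + 1) * P ^ (b i + 1) := by
        rw [← hres, mul_comm (_ / _)]
        exact (Nat.mod_add_div _ _).symm
      have h1 := hgrow ((x i * x' i) / P ^ (b i + 1))
      rw [← hprod, Lg_mul hPp hP2 _ _ _ (hX x hx i) (hX' x' hx' i)] at h1
      push_cast
      rw [hC x hx i, hC' x' hx' i, hAc, hB i hd x q₀.1 (fun j hj => (hBx j hj).1),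
        hB' i hd x' q₀.2 (fun j hj => (hBx j hj).2)]
      push_cast at h1
      linear_combination h1
    -- the base point gives the divisibility
    have hb0 : P ^ (b i) ∣ NN p b := by
      rw [NN_cof p b i]
      exact dvd_mul_right _ _
    have hAn : A ≡ n' [MOD P ^ (b i)] := by
      have h1 := hsum q₀.1 h₀ q₀.2 h₀' (fun j _ => ⟨rfl, rfl⟩) rfl
      rw [ZMod.natCast_eq_natCast_iff] at h1
      have h2 : C q₀.1 + C' q₀.2 ≡ A + P ^ (b i) * psi P (b i) (d i) ρ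
          ((q₀.1 i * q₀.2 i) / P ^ (b i + 1)) [MOD P ^ (b i)] :=
        h1.of_dvd (pow_dvd_pow P (Nat.le_add_right _ _))
      have h3 : A + P ^ (b i) * psi P (b i) (d i) ρ
          ((q₀.1 i * q₀.2 i) / P ^ (b i + 1)) ≡ A [MOD P ^ (b i)] := by
        simpa using Nat.ModEq.add_left A ((Nat.modEq_zero_iff_dvd).2 (Dvd.intro _ rfl :
          P ^ (b i) ∣ P ^ (b i) * psi P (b i) (d i) ρ ((q₀.1 i * q₀.2 i) / P ^ (b i + 1))))
      have h4 : C q₀.1 + C' q₀.2 ≡ n' [MOD P ^ (b i)] :=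
        (hn₀.trans (Nat.mod_modEq n (NN p b)).symm).of_dvd hb0
      exact (h2.trans h3).symm.trans h4
    obtain ⟨β, hβ⟩ : ∃ β, A + P ^ (b i + d i) * n' = n' + P ^ (b i) * β := by
      have h1 : n' ≤ A + P ^ (b i + d i) * n' :=
        (Nat.le_mul_of_pos_left n' (pow_pos hPp.pos _)).trans (Nat.le_add_left _ _)
      have h2 : A + P ^ (b i + d i) * n' ≡ n' [MOD P ^ (b i)] := by
        have h3 : A + P ^ (b i + d i) * n' ≡ A [MOD P ^ (b i)] := by
          simpa using Nat.ModEq.add_left A ((Nat.modEq_zero_iff_dvd).2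
            (Dvd.dvd.mul_right (pow_dvd_pow P (Nat.le_add_right (b i) (d i))) n'))
        exact h3.trans hAn
      have h3 := (Nat.modEq_iff_dvd' h1).1 h2.symm
      obtain ⟨β, hβ⟩ := h3
      exact ⟨β, by omega⟩
    refine ⟨(β % P ^ (d i), ρ), ⟨Nat.mod_lt _ (pow_pos hPp.pos _), hρlt, hρc⟩, ?_⟩
    intro _ x hx x' hx' hxn hBx hres
    set u := (C x + C' x') / NN p b with hu
    set ψ := psi P (b i) (d i) ρ ((x i * x' i) / P ^ (b i + 1)) with hψ
    have h1 := hsum x hx x' hx' hBx hres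
    rw [ZMod.natCast_eq_natCast_iff] at h1
    have h2 : C x + C' x' = NN p b * u + n' := by
      rw [hu, hn', ← (hxn : (C x + C' x') % NN p b = n % NN p b)]
      exact (Nat.div_add_mod _ _).symm
    have h3 : NN p b * u + n' ≡ n' + P ^ (b i) * (β + ψ) [MOD P ^ (b i + d i)] := by
      rw [← h2]
      refine h1.trans ?_
      have h4 : A + P ^ (b i) * ψ + P ^ (b i + d i) * n' = n' + P ^ (b i) * (β + ψ) := by
        rw [mul_add]
        omega
      rw [← h4]
      have h5 : A + P ^ (b i) * ψ + P ^ (b i + d i) * n' ≡ A + P ^ (b i) * ψ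
          [MOD P ^ (b i + d i)] := by
        simpa using Nat.ModEq.add_left (A + P ^ (b i) * ψ) ((Nat.modEq_zero_iff_dvd).2
          (Dvd.intro _ rfl : P ^ (b i + d i) ∣ P ^ (b i + d i) * n'))
      exact h5.symm
    have h4 : NN p b * u ≡ P ^ (b i) * (β + ψ) [MOD P ^ (b i + d i)] := by
      refine Nat.ModEq.add_right_cancel' n' ?_
      rw [add_comm (P ^ (b i) * (β + ψ)) n']
      exact h3
    have h5 : P ^ (b i) * (cof p b i * u) ≡ P ^ (b i) * (β + ψ) [MOD P ^ (b i) * P ^ (d i)] := by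
      rw [← pow_add, ← mul_assoc, ← NN_cof p b i]
      exact h4
    have h6 : cof p b i * u ≡ β + ψ [MOD P ^ (d i)] :=
      Nat.ModEq.mul_left_cancel' (pow_pos hPp.pos _).ne' h5
    rw [ZMod.natCast_eq_natCast_iff]
    exact h6.trans (Nat.ModEq.add_right ψ (Nat.mod_modEq β _).symm)
  choose θ hθ hθ2 using hone
  refine ⟨θ, ?_, ?_⟩
  · rw [Theta, Fintype.mem_piFinset]
    intro i
    obtain ⟨h1, h2, h3⟩ := hθ i
    rw [mem_product, mem_range, mem_filter, mem_range]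
    exact ⟨h1, h2, h3⟩
  · intro x hx x' hx' hxn hBx hres
    rw [← ZMod.natCast_eq_natCast_iff, natCast_eq_iff hp hinj]
    intro i
    by_cases hd : d i = 0
    · have hss : Subsingleton (ZMod (p i ^ d i)) := by
        rw [hd, pow_zero]
        infer_instance
      exact Subsingleton.elim _ _
    rw [clm, cv_cast_comp hp hinj]
    have h1 := hθ2 i hd x hx x' hx' hxn hBx (hres i hd)
    rw [← h1, Nat.cast_mul, ← mul_assoc, mul_comm (_⁻¹) _,
      ZMod.coe_mul_inv_eq_one _ (Nat.Coprime.pow_right _ (cof_coprime hp hinj b i)), one_mul]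

/-- **The classes of the labels** modulo a coarser front. -/
theorem clm_inj (hp : ∀ i, (p i).Prime) (hp2 : ∀ i, p i ≠ 2) (hinj : Function.Injective p)
    (b d e : ι → ℕ) (he : ∀ i, e i ≤ d i) {θ : ι → ℕ × ℕ} (hθ : θ ∈ Theta p d) (j j' : ι → ℕ)
    (h : clm hp hinj b d θ j ≡ clm hp hinj b d θ j' [MOD NN p e]) (i : ι) :
    j i ≡ j' i [MOD p i ^ e i] := by
  classical
  rw [← ZMod.natCast_eq_natCast_iff, natCast_eq_iff hp hinj] at h
  have h1 := h i
  rw [Theta, Fintype.mem_piFinset] at hθ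
  have hθi := hθ i
  rw [mem_product, mem_range, mem_filter, mem_range] at hθi
  obtain ⟨-, -, hρ⟩ := hθi
  rcases Nat.eq_zero_or_pos (e i) with h0 | h0
  · rw [h0, pow_zero]
    exact Nat.modEq_one
  -- the values modulo `p ^ e`
  have key : ∀ k : ι → ℕ, (((clm hp hinj b d θ k : ℕ)) : ZMod (p i ^ e i)) =
      ((cof p b i : ℕ) : ZMod (p i ^ e i))⁻¹ *
        (((θ i).1 + psi (p i) (b i) (d i) (θ i).2 (k i) : ℕ) : ZMod (p i ^ e i)) := by
    intro k
    have h2 : (((cof p b i) * clm hp hinj b d θ k : ℕ) : ZMod (p i ^ d i)) =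
        (((θ i).1 + psi (p i) (b i) (d i) (θ i).2 (k i) : ℕ) : ZMod (p i ^ d i)) := by
      rw [Nat.cast_mul, clm, cv_cast_comp hp hinj, ← mul_assoc,
        ZMod.coe_mul_inv_eq_one _ (Nat.Coprime.pow_right _ (cof_coprime hp hinj b i)), one_mul]
    rw [ZMod.natCast_eq_natCast_iff] at h2
    have h3 := h2.of_dvd (pow_dvd_pow (p i) (he i))
    rw [← ZMod.natCast_eq_natCast_iff] at h3
    rw [← h3, Nat.cast_mul, ← mul_assoc, mul_comm (_⁻¹) _,
      ZMod.coe_mul_inv_eq_one _ (Nat.Coprime.pow_right _ (cof_coprime hp hinj b i)), one_mul]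
  rw [key j, key j'] at h1
  have h2 : (((θ i).1 + psi (p i) (b i) (d i) (θ i).2 (j i) : ℕ) : ZMod (p i ^ e i)) =
      (((θ i).1 + psi (p i) (b i) (d i) (θ i).2 (j' i) : ℕ) : ZMod (p i ^ e i)) := by
    have h3 := congrArg (fun t => ((cof p b i : ℕ) : ZMod (p i ^ e i)) * t) h1
    rw [← mul_assoc, ← mul_assoc,
      ZMod.coe_mul_inv_eq_one _ (Nat.Coprime.pow_right _ (cof_coprime hp hinj b i)), one_mul,
      one_mul] at h3
    exact h3
  rw [ZMod.natCast_eq_natCast_iff] at h2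
  exact psi_inj (hp i) (hp2 i) (b i) (d i) (e i) _ _ _ (he i) hρ
    (Nat.ModEq.add_left_cancel' _ h2)

/-- numbers below `p ^ u` in a class modulo `p ^ v` -/
theorem card_class_pow {q : ℕ} (hq : 0 < q) (u v c : ℕ) (S : Finset ℕ)
    (hS : ∀ x ∈ S, x < q ^ u ∧ x ≡ c [MOD q ^ v]) : S.card ≤ q ^ (u - v) := by
  classical
  refine (card_le_card_of_injOn (fun x => x / q ^ v) (t := range (q ^ (u - v))) ?_ ?_).trans
    (card_range _).le
  · intro x hx
    obtain ⟨h1, _⟩ := hS x hx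
    rw [Finset.mem_coe, mem_range, Nat.div_lt_iff_lt_mul (pow_pos hq _), ← pow_add]
    exact lt_of_lt_of_le h1 (Nat.pow_le_pow_right hq (by omega))
  · intro x hx y hy hxy
    have h1 := (hS x hx).2
    have h2 := (hS y hy).2
    have h3 : x % q ^ v = y % q ^ v := (h1.trans h2.symm)
    rw [← Nat.mod_add_div x (q ^ v), ← Nat.mod_add_div y (q ^ v), h3]
    simp only at hxy
    rw [hxy]

/-- the number of labels in a class -/
theorem card_clm_class (hp : ∀ i, (p i).Prime) (hp2 : ∀ i, p i ≠ 2) (hinj : Function.Injective p)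
    (b d e u : ι → ℕ) (he : ∀ i, e i ≤ d i) {θ : ι → ℕ × ℕ} (hθ : θ ∈ Theta p d) (c : ℕ)
    (S : Finset (ι → ℕ)) (hS : ∀ j ∈ S, (∀ i, j i < p i ^ u i) ∧
      clm hp hinj b d θ j ≡ c [MOD NN p e]) : S.card ≤ ∏ i, p i ^ (u i - e i) := by
  classical
  rcases S.eq_empty_or_nonempty with h | ⟨j₀, hj₀⟩
  · rw [h]
    simp
  have hsub : S ⊆ Fintype.piFinset (fun i => (range (p i ^ u i)).filter
      (fun x => x ≡ j₀ i [MOD p i ^ e i])) := by
    intro j hj
    rw [Fintype.mem_piFinset]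
    intro i
    rw [mem_filter, mem_range]
    refine ⟨(hS j hj).1 i, ?_⟩
    exact clm_inj hp hp2 hinj b d e he hθ j j₀ ((hS j hj).2.trans (hS j₀ hj₀).2.symm) i
  refine (card_le_card hsub).trans ?_
  rw [Fintype.card_piFinset]
  refine Finset.prod_le_prod' (fun i _ => ?_)
  refine card_class_pow (hp i).pos (u i) (e i) (j₀ i) _ ?_
  intro x hx
  rw [mem_filter, mem_range] at hx
  exact hx

/-- the class of a pair -/
def PhiB (p b d : ι → ℕ) (B : Finset ι) (q : (ι → ℕ) × (ι → ℕ)) : ι → ℕ × ℕ := fun i =>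
  if i ∈ B then (q.1 i, q.2 i) else
    if d i ≠ 0 then ((q.1 i * q.2 i) % p i ^ (b i + 1), 0) else (0, 0)

/-- **The number of classes.** -/
theorem card_PhiB_le (hp : ∀ i, (p i).Prime) (hp2 : ∀ i, p i ≠ 2) (b d : ι → ℕ) (B : Finset ι)
    (rk : ι → ℕ) (σ σ' : ∀ i, (ι → ℕ) → ZMod (p i ^ b i))
    (hσ : ∀ i, (i ∈ B ∨ d i ≠ 0) → ∀ x y, (∀ j ∈ B, rk j < rk i → x j = y j) → σ i x = σ i y)
    (hσ' : ∀ i, (i ∈ B ∨ d i ≠ 0) → ∀ x y, (∀ j ∈ B, rk j < rk i → x j = y j) → σ' i x = σ' i y)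
    (c : ∀ i, ZMod (p i ^ b i)) (S : Finset ((ι → ℕ) × (ι → ℕ)))
    (hS : ∀ g ∈ S, ∀ i, Good (g.1 i) ∧ Good (g.2 i) ∧ (g.1 i).Coprime (p i) ∧
      (g.2 i).Coprime (p i) ∧ (i ∈ B → (g.1 i) ^ 2 < p i ^ b i ∧ (g.2 i) ^ 2 < p i ^ b i) ∧
      (Lg (p i) (b i) (g.1 i) + σ i g.1) + (Lg (p i) (b i) (g.2 i) + σ' i g.2) = c i) :
    (S.image (PhiB p b d B)).card ≤ ∏ i, (2 * (p i - 1)) := by
  classical
  refine card_le_prod_of_rank rk _ _ ?_
  intro f θ hθ
  rw [mem_image] at hθ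
  obtain ⟨g₀, hg₀, rfl⟩ := hθ
  have hpf : 2 ≤ p f := (hp f).two_le
  -- equality of the coordinates in `B` of smaller rank
  have hlow : ∀ g ∈ S, (∀ i, rk i < rk f → PhiB p b d B g i = PhiB p b d B g₀ i) →
      ∀ j ∈ B, rk j < rk f → g.1 j = g₀.1 j ∧ g.2 j = g₀.2 j := by
    intro g _ h j hj hjf
    have h1 := h j hjf
    simp only [PhiB, if_pos hj, Prod.mk.injEq] at h1
    exact h1
  by_cases hfB : f ∈ B
  · -- a family in `B`
    refine le_trans (pairs_mod (hp f) (hp2 f) (b f) (c f - σ f g₀.1 - σ' f g₀.2) {0} _ ?_) ?_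
    · intro z hz
      rw [mem_image] at hz
      obtain ⟨w, hw, rfl⟩ := hz
      rw [mem_filter, mem_image] at hw
      obtain ⟨⟨g, hg, rfl⟩, hl⟩ := hw
      obtain ⟨h1, h2, h3, h4, h5, h6⟩ := hS g hg f
      obtain ⟨h7, h8⟩ := h5 hfB
      simp only [PhiB, if_pos hfB]
      refine ⟨h1, h2, h3, h4, ?_, ?_⟩
      · rw [mem_singleton]
        refine Nat.div_eq_of_lt (lt_of_lt_of_le
          (prod_lt_of_half (hp f).pos h7 h8 (by omega : b f + b f ≤ 2 * b f)) ?_)
        exact Nat.pow_le_pow_right (hp f).pos (Nat.le_succ _)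
      · rw [← h6, hσ f (Or.inl hfB) g.1 g₀.1 (fun j hj hjf => (hlow g hg hl j hj hjf).1),
          hσ' f (Or.inl hfB) g.2 g₀.2 (fun j hj hjf => (hlow g hg hl j hj hjf).2)]
        ring
    · rw [card_singleton, mul_one]
  · by_cases hd : d f ≠ 0
    · -- a growing family: the residue of the product
      refine le_trans (card_le_card (t := ((Finset.range (p f ^ (b f + 1))).filter
        (fun m => m.Coprime (p f) ∧ Lg (p f) (b f) m = c f - σ f g₀.1 - σ' f g₀.2)).image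
          (fun m => ((m, 0) : ℕ × ℕ))) ?_)
        (card_image_le.trans ((card_Lg_le (hp f) (hp2 f) (b f) _).trans (by omega)))
      intro z hz
      rw [mem_image] at hz
      obtain ⟨w, hw, rfl⟩ := hz
      rw [mem_filter, mem_image] at hw
      obtain ⟨⟨g, hg, rfl⟩, hl⟩ := hw
      obtain ⟨h1, h2, h3, h4, _, h6⟩ := hS g hg f
      rw [mem_image]
      refine ⟨(g.1 f * g.2 f) % p f ^ (b f + 1), ?_, ?_⟩
      · rw [mem_filter, mem_range]
        refine ⟨Nat.mod_lt _ (pow_pos (hp f).pos _),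
          mod_coprime _ _ (Nat.Coprime.mul_left h3 h4), ?_⟩
        rw [Lg_mod, Lg_mul (hp f) (hp2 f) _ _ _ h3 h4, ← h6,
          hσ f (Or.inr hd) g.1 g₀.1 (fun j hj hjf => (hlow g hg hl j hj hjf).1),
          hσ' f (Or.inr hd) g.2 g₀.2 (fun j hj hjf => (hlow g hg hl j hj hjf).2)]
        ring
      · simp only [PhiB, if_neg hfB, if_pos hd]
    · -- no information
      refine le_trans (card_le_card (t := {((0 : ℕ), (0 : ℕ))}) ?_)
        (by rw [card_singleton]; omega)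
      intro z hz
      rw [mem_image] at hz
      obtain ⟨w, hw, rfl⟩ := hz
      rw [mem_filter, mem_image] at hw
      obtain ⟨⟨g, hg, rfl⟩, hl⟩ := hw
      simp only [PhiB, if_neg hfB, if_neg hd, mem_singleton]

end Pool.Agent.Helper44.T5
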